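import Pool.Agent.H.MP_0a1f67_ag.B

set_option autoImplicit false

namespace Pool.Agent.Results.MP_0a1f67_ag.Irreducible

/-- The correlation model, a matrix being given by its entries. -/
def model {n : ℕ} (G H : SimpleGraph (Fin n)) : Set (Fin n × Fin n → ℝ) :=
  {x | (Matrix.of fun i j => x (i, j)).PosDef ∧
    (∀ i j, i ≠ j → ¬ G.Adj i j → (Matrix.of fun i j => x (i, j))⁻¹ i j = 0) ∧
    (∀ i j, i ≠ j → ¬ H.Adj i j → x (i, j) = 0) ∧ ∀ i, x (i, i) = 1}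

/-- Embedded smooth submanifold: every point has a slice chart. -/
def IsSmooth {n : ℕ} (M : Set (Fin n × Fin n → ℝ)) : Prop :=
  ∀ p ∈ M, ∃ (φ : OpenPartialHomeomorph (Fin n × Fin n → ℝ) (Fin n × Fin n → ℝ))
    (V : Submodule ℝ (Fin n × Fin n → ℝ)), p ∈ φ.source ∧ ContDiffOn ℝ (⊤ : ℕ∞) φ φ.source ∧
      ContDiffOn ℝ (⊤ : ℕ∞) φ.symm φ.target ∧ ∀ q ∈ φ.source, q ∈ M ↔ φ q ∈ V

open Pool.Agent.H.MP_0a1f67_ag in
theorem result (n : ℕ) (G H : SimpleGraph (Fin n)) (h : IsSmooth (model G H)) :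
    (MvPolynomial.vanishingIdeal ℝ (model G H)).IsPrime := by
  let e : (Fin n × Fin n → ℝ) ≃L[ℝ] Matrix (Fin n) (Fin n) ℝ :=
    (LinearEquiv.curry ℝ ℝ (Fin n) (Fin n)).toContinuousLinearEquiv
  obtain ⟨φ, V, h0, h1, h2, h3⟩ := h (e.symm 1) one_M
  have := tang (G := G) (H := H) e φ V h0 (h1.of_le (by simp)) (h2.of_le (by simp)) h3
  refine ⟨fun t => ?_, fun {p q} hpq => (prime this p q fun S hS => hpq (e.symm S) hS).imp
    (fun a x hx => a (e x) hx) fun a x hx => a (e x) hx⟩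
  simpa using (Ideal.eq_top_iff_one _).mp t (e.symm 1) one_M

end Pool.Agent.Results.MP_0a1f67_ag.Irreducible
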